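import Pool.Agent.helper34.AC.Spec3

set_option autoImplicit false

namespace Pool.Agent.helper34.AC

theorem E1M_S0 (hBRC : BRC_stmt) (m : ℕ) :
    ∑ t ∈ Finset.range (m + 1), (m.choose t : ℝ) * bl (m - t) = bl (m + 1) := by
  obtain ⟨_, _, _, h1, _⟩ := hBRC
  rw [← h1 m, F, ← Finset.sum_flip]
  apply Finset.sum_congr rfl
  intro t ht
  have ht' : t ≤ m := by
    rw [Finset.mem_range] at ht
    omega
  rw [Nat.sub_sub_self ht', Nat.choose_symm ht', one_pow, mul_one]

theorem E1M_Sk (hBRC : BRC_stmt) (n k : ℕ) :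
    ∑ t ∈ Finset.range (k + n + 1), ((k + n).choose t : ℝ) * bl (k + n - t) * (t.choose k : ℝ) =
      ((k + n).choose k : ℝ) * bl (n + 1) := by
  rw [show k + n + 1 = k + (n + 1) by ring, Finset.sum_range_add]
  rw [Finset.sum_eq_zero, zero_add, ← E1M_S0 hBRC n, Finset.mul_sum]
  · apply Finset.sum_congr rfl
    intro j hj
    have hj' : j ≤ n := by
      rw [Finset.mem_range] at hj
      omega
    have h2 : (k + n).choose (k + j) * (k + j).choose k = (k + n).choose k * n.choose j := by
      have := Nat.choose_mul (n := k + n) (k := k + j) (s := k) (show k ≤ k + j by omega)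
      simpa using this
    have h2' : (((k + n).choose (k + j) : ℕ) : ℝ) * (((k + j).choose k : ℕ) : ℝ) =
        (((k + n).choose k : ℕ) : ℝ) * ((n.choose j : ℕ) : ℝ) := by exact_mod_cast h2
    have h3 : k + n - (k + j) = n - j := by omega
    rw [h3]
    linear_combination bl (n - j) * h2'
  · intro t ht
    have : t < k := by
      rw [Finset.mem_range] at ht
      omega
    simp [Nat.choose_eq_zero_of_lt this]

theorem E1M_Pas (hBRC : BRC_stmt) (m : ℕ) :
    ∑ k ∈ Finset.range (m + 1), (m.choose k : ℝ) * bl (k + 1) = bl (m + 2) - bl (m + 1) := by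
  obtain ⟨_, _, _, h1, _⟩ := hBRC
  have e1 : bl (m + 2) = ∑ k ∈ Finset.range (m + 2), ((m + 1).choose k : ℝ) * bl k := by
    rw [← h1 (m + 1), F]
    apply Finset.sum_congr rfl
    intro t _
    rw [one_pow, mul_one]
  have e2 : bl (m + 1) = ∑ k ∈ Finset.range (m + 2), (m.choose k : ℝ) * bl k := by
    rw [← h1 m, F, Finset.sum_range_succ _ (m + 1)]
    simp
  have e4 : ∑ k ∈ Finset.range (m + 2), ((m + 1).choose k : ℝ) * bl k =
      ∑ k ∈ Finset.range (m + 1), ((m + 1).choose (k + 1) : ℝ) * bl (k + 1) + bl 0 := by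
    rw [Finset.sum_range_succ']
    simp
  have e5 : ∑ k ∈ Finset.range (m + 2), (m.choose k : ℝ) * bl k =
      ∑ k ∈ Finset.range (m + 1), (m.choose (k + 1) : ℝ) * bl (k + 1) + bl 0 := by
    rw [Finset.sum_range_succ']
    simp
  have e3 : ∀ k : ℕ, ((m + 1).choose (k + 1) : ℝ) * bl (k + 1) =
      (m.choose k : ℝ) * bl (k + 1) + (m.choose (k + 1) : ℝ) * bl (k + 1) := by
    intro k
    rw [Nat.choose_succ_succ]
    push_cast
    ring
  rw [Finset.sum_congr rfl (fun k _ => e3 k), Finset.sum_add_distrib] at e4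
  rw [e1, e2, e4, e5]
  ring

theorem E1M (hBRC : BRC_stmt) : E1M_stmt := by
  have hpos : ∀ m : ℕ, 0 < bl m := hBRC.2.2.2.2.2.1
  have hne : ∀ m : ℕ, bl m ≠ 0 := fun m => (hpos m).ne'
  have hpull : ∀ (m : ℕ) (f : ℕ → ℝ), ∑ t ∈ Finset.range (m + 1), pT m t * f t =
      (∑ t ∈ Finset.range (m + 1), (m.choose t : ℝ) * bl (m - t) * f t) / bl (m + 1) := by
    intro m f
    rw [Finset.sum_div]
    apply Finset.sum_congr rfl
    intro t _
    rw [pT]
    ring
  refine ⟨?_, ?_, ?_, ?_, ?_, ?_⟩
  · intro m t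
    unfold pT
    exact div_nonneg (mul_nonneg (Nat.cast_nonneg _) (hpos _).le) (hpos _).le
  · intro m
    have h := hpull m (fun _ => 1)
    simp only [mul_one] at h
    rw [h, E1M_S0 hBRC, div_self (hne _)]
  · intro m
    rw [hpull]
    rcases m with _ | n
    · simp [om]
    · have h := E1M_Sk hBRC n 1
      rw [show 1 + n = n + 1 by ring] at h
      simp only [Nat.choose_one_right] at h
      rw [h]
      unfold om gb
      have h1 := hne (n + 1)
      have h2 := hne (n + 1 + 1)
      field_simp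
  · intro m hm
    rw [hpull]
    obtain ⟨n, rfl⟩ : ∃ n, m = 2 + n := ⟨m - 2, by omega⟩
    rw [E1M_Sk hBRC n 2]
    have hc : (((2 + n).choose 2 : ℕ) : ℝ) = (n + 2) * (n + 1) / 2 := by
      rw [Nat.cast_choose_two]
      push_cast
      ring
    rw [hc, show 2 + n - 1 = n + 1 by omega]
    unfold om gb
    have h1 := hne (n + 1)
    have h2 := hne (n + 1 + 1)
    have h3 := hne (2 + n + 1)
    rw [show 2 + n = n + 1 + 1 by ring] at h3 ⊢
    push_cast
    field_simp
    ring
  · intro m hm
    rw [hpull]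
    rcases Nat.eq_or_lt_of_le hm with h | h
    · subst h
      have : ∑ t ∈ Finset.range (2 + 1), (Nat.choose 2 t : ℝ) * bl (2 - t) * (t.choose 3 : ℝ) = 0 := by
        simp [Finset.sum_range_succ, Nat.choose_eq_zero_of_lt]
      rw [this]
      simp [om]
    · obtain ⟨n, rfl⟩ : ∃ n, m = 3 + n := ⟨m - 3, by omega⟩
      rw [E1M_Sk hBRC n 3]
      have hc : (((3 + n).choose 3 : ℕ) : ℝ) = (n + 3) * (n + 2) * (n + 1) / 6 := by
        have h6 : (3 + n).choose 3 * 6 = (n + 3) * (n + 2) * (n + 1) := by
          have := Nat.descFactorial_eq_factorial_mul_choose (3 + n) 3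
          simp only [Nat.descFactorial_succ, Nat.descFactorial_zero] at this
          rw [show 3 + n - 2 = n + 1 by omega, show 3 + n - 1 = n + 2 by omega,
            show 3 + n - 0 = n + 3 by omega, show Nat.factorial 3 = 6 from rfl] at this
          rw [mul_comm, ← this]
          ring
        have h6' : (((3 + n).choose 3 : ℕ) : ℝ) * 6 = ((n : ℝ) + 3) * (n + 2) * (n + 1) := by
          exact_mod_cast h6
        linarith
      rw [hc, show 3 + n - 1 = n + 1 + 1 by omega, show 3 + n - 2 = n + 1 by omega,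
        show 3 + n = n + 1 + 1 + 1 by ring]
      unfold om gb
      have h1 := hne (n + 1)
      have h2 := hne (n + 1 + 1)
      have h3 := hne (n + 1 + 1 + 1)
      have h4 := hne (n + 1 + 1 + 1 + 1)
      push_cast
      field_simp
      ring
  · intro m
    rw [hpull]
    have h1 : ∑ t ∈ Finset.range (m + 1), (m.choose t : ℝ) * bl (m - t) * gb (m - t) =
        ∑ k ∈ Finset.range (m + 1), (m.choose k : ℝ) * bl (k + 1) := by
      rw [← Finset.sum_flip]
      apply Finset.sum_congr rfl
      intro t ht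
      have ht' : t ≤ m := by
        rw [Finset.mem_range] at ht
        omega
      rw [Nat.sub_sub_self ht', Nat.choose_symm ht', mul_assoc]
      congr 1
      unfold gb
      have := hne t
      field_simp
    rw [h1, E1M_Pas hBRC]
    unfold gb
    have := hne (m + 1)
    field_simp

end Pool.Agent.helper34.AC
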